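import Mathlib
import Pool.Agent.R259.CI.Fin
import Pool.Agent.R259.CI.P1
import Pool.Agent.R259.CI.P2
import Pool.Agent.R259.CI.P3
import Pool.Agent.R259.CI.P4
import Pool.Agent.R259.CI.P5
import Pool.Agent.R259.CI.P6
import Pool.Agent.R259.CI.P7
import Pool.Agent.R259.CI.P8
import Pool.Agent.R259.CI.P9
import Pool.Agent.R259.CI.P10
import Pool.Agent.R259.CI.P11

/-!
# MP_c729a8_an, Q1: `F(·,k)` has exactly `k - 1` zeros in `(0,2)`, all simple (full answer, yes)

`F(x,k) = ∫_0^{arccos (x-1)} sin (k arccos (x - cos l)) dl`.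

Proof. Put `x = 2 - 2q`, `θ = 2 arcsin (√q sin p)`, `l = 2 arcsin (√q cos p)`, so that
`cos θ + cos l = x`. Then `F = G_k(q)`, `G_k' = 2k Φ_k` with
`Φ_k = ∫_0^{π/2} cos (kθ) dp / √((1 - q sin²p)(1 - q cos²p))`, `Φ_1 = (1 - q) Φ_0` and
`Φ_{k+2} = Φ_k - 2 G_{k+1}`. The coefficients of the power series of `Φ_0` are positive and
decreasing, so by induction the coefficients of `(-1)^k Φ_k` are nonnegative from the index `k` on;
by Rolle's theorem `G_k - αq - βq²` has at most `k` zeros in `(0,1)`. On the other hand the sign of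
`F` at `x = 1 + cos (Nπ/k)` is `(-1)^(N-1)` for `1 ≤ N < k`, because the weight in
`F = ∫ sin (kθ) (dl/dθ) dθ` is increasing, and it is `(-1)^(k-1)` near `x = 0`. A perturbation by a
quadratic polynomial then shows that there are exactly `k - 1` zeros and that they are simple.
-/

set_option autoImplicit false

namespace Pool.Agent.Results.MP_c729a8_an.ExactlySimpleZeros

open Set

/-- The function of the problem. -/
noncomputable def F (x : ℝ) (k : ℕ) : ℝ :=
  ∫ l in (0:ℝ)..Real.arccos (x - 1), Real.sin (k * Real.arccos (x - Real.cos l))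

/-- For every `k ≥ 1` the function `x ↦ F(x,k)` has exactly `k - 1` zeros in `(0,2)`, and each of
them is simple. -/
theorem result (k : ℕ) (hk : 1 ≤ k) :
    {x : ℝ | x ∈ Ioo (0:ℝ) 2 ∧ F x k = 0}.encard = ((k - 1 : ℕ) : ℕ∞) ∧
      ∀ x ∈ Ioo (0:ℝ) 2, F x k = 0 →
        DifferentiableAt ℝ (fun y => F y k) x ∧ deriv (fun y => F y k) x ≠ 0 := by
  have h7 := R259.CI.p7 R259.CI.p2 R259.CI.p3 R259.CI.p4 R259.CI.p5
  exact R259.CI.fin R259.CI.p1 R259.CI.p2 R259.CI.p6
    (R259.CI.p9 R259.CI.p2 R259.CI.p5 h7 R259.CI.p8)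
    (R259.CI.p10 R259.CI.p2 R259.CI.p3 R259.CI.p5) R259.CI.p11 k hk

end Pool.Agent.Results.MP_c729a8_an.ExactlySimpleZeros
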